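import Pool.Agent.H41.ME.Fr

set_option autoImplicit false

/-!
# [H41 ME Trn] transport to `Fin (2 ^ k)` (MP_2f0703_co, helper65)
-/

namespace Pool.Agent.H41.ME

theorem trn : TrnStmt := by
  classical
  intro k F _ _ h5 hcard g g0 gi gd gdd hreach hng
  obtain ⟨b, hb⟩ := hreach
  let ε : F ≃ Fin (2 ^ k) := Fintype.equivFinOfCardEq hcard
  let P : Equiv.Perm F := Equiv.ofBijective g (Finite.injective_iff_bijective.1 (fun x y h => gi x y h))
  have hP : ∀ x, P x = g x := fun x => rfl
  have hPk : ∀ (k : ℕ) (x : F), (P ^ k) x = g^[k] x := by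
    intro k
    induction k with
    | zero => intro x; rfl
    | succ k ih =>
      intro x
      rw [pow_succ, Equiv.Perm.mul_apply, ih, Function.iterate_succ_apply, hP]
  let row : F → Equiv.Perm F := fun i => (Equiv.subRight i).trans (P.trans (Equiv.addLeft i))
  let L : Fin (2 ^ k) → Equiv.Perm (Fin (2 ^ k)) :=
    fun i => (ε.symm.trans (row (ε.symm i))).trans ε
  have hL : ∀ i x, L i x = ε (ε.symm i + g (ε.symm x - ε.symm i)) := fun i x => rfl
  have hpow : ∀ (i : Fin (2 ^ k)) (l : ℕ) (x : Fin (2 ^ k)),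
      ((L i) ^ l) x = ε (ε.symm i + (P ^ l) (ε.symm x - ε.symm i)) := by
    intro i l
    induction l with
    | zero => intro x; simp
    | succ n ih =>
      intro x
      rw [pow_succ, Equiv.Perm.mul_apply, ih, hL, Equiv.symm_apply_apply, pow_succ, Equiv.Perm.mul_apply, hP,
        add_sub_cancel_left]
  refine ⟨L, ?_, ?_, ?_, ?_⟩
  · intro j i i' hij
    have h1 : L i j = L i' j := hij
    rw [hL, hL] at h1
    have h3 := ε.injective h1
    have h4 : g (ε.symm j - ε.symm i) + (ε.symm j - ε.symm i) =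
        g (ε.symm j - ε.symm i') + (ε.symm j - ε.symm i') := by
      linear_combination h3 - (ε.symm i - ε.symm i') * h5
    have h6 := gd _ _ h4
    exact ε.symm.injective (sub_right_injective h6)
  · intro i
    have fix : ∀ x, L i x = x ↔ x = i := by
      intro x
      rw [hL]
      constructor
      · intro hx
        have h1 : ε.symm i + g (ε.symm x - ε.symm i) = ε.symm x := by
          apply ε.injective; rw [hx, Equiv.apply_symm_apply]
        have h3 : g (ε.symm x - ε.symm i) + (ε.symm x - ε.symm i) = g 0 + 0 := by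
          rw [g0]
          linear_combination h1 + (ε.symm x - ε.symm i) * h5
        have h4 := gd _ _ h3
        exact ε.symm.injective (sub_eq_zero.1 h4)
      · rintro rfl
        rw [sub_self, g0, add_zero, Equiv.apply_symm_apply]
    refine ⟨⟨i, (fix i).2 rfl, fun x hx => (fix x).1 hx⟩, ?_⟩
    intro x y hx hy
    have hx' : ε.symm x - ε.symm i ≠ 0 := fun h0 => hx ((fix x).2 (ε.symm.injective (sub_eq_zero.1 h0)))
    have hy' : ε.symm y - ε.symm i ≠ 0 := fun h0 => hy ((fix y).2 (ε.symm.injective (sub_eq_zero.1 h0)))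
    obtain ⟨n, hn⟩ := hb _ hx'
    obtain ⟨m, hm⟩ := hb _ hy'
    rw [← hPk] at hn hm
    have hfin := isOfFinOrder_of_finite P
    obtain ⟨r, hr⟩ : ∃ r : ℕ, (P ^ r) b = ε.symm y - ε.symm i := by
      have h3 : (P ^ m)⁻¹ ∈ Submonoid.powers P := by
        rw [hfin.mem_powers_iff_mem_zpowers]
        exact (Subgroup.zpowers P).inv_mem ((Subgroup.zpowers P).pow_mem (Subgroup.mem_zpowers _) m)
      obtain ⟨r, hr⟩ := h3
      refine ⟨r, ?_⟩
      have hr' : P ^ r = (P ^ m)⁻¹ := hr
      rw [hr', ← hm, ← Equiv.Perm.mul_apply, inv_mul_cancel, Equiv.Perm.one_apply]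
    refine ⟨r + n, ?_⟩
    rw [hpow, pow_add, Equiv.Perm.mul_apply, hn, hr, add_sub_cancel, Equiv.apply_symm_apply]
  · rintro ⟨G, hG, r, c', s, H⟩
    refine hng ⟨G, hG, ε.trans r, ε.trans c', ε.trans s, fun i j => ?_⟩
    have h1 := H (ε i) (ε j)
    rw [hL, Equiv.symm_apply_apply, Equiv.symm_apply_apply] at h1
    exact h1
  · intro j i i' hij
    have h1 : ((L i) ^ 2) j = ((L i') ^ 2) j := by
      rw [pow_two, pow_two]; exact hij
    rw [hpow, hpow] at h1
    have h3 := ε.injective h1
    rw [hPk, hPk] at h3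
    have h4 : g (g (ε.symm j - ε.symm i)) + (ε.symm j - ε.symm i) =
        g (g (ε.symm j - ε.symm i')) + (ε.symm j - ε.symm i') := by
      have h6 : ∀ x, g^[2] x = g (g x) := fun x => rfl
      rw [h6, h6] at h3
      linear_combination h3 - (ε.symm i - ε.symm i') * h5
    have h7 := gdd _ _ h4
    exact ε.symm.injective (sub_right_injective h7)

end Pool.Agent.H41.ME
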