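import Pool.Agent.H41.ME.CrtD

set_option autoImplicit false

/-!
# [H41 ME CrtC] certificates (MP_2f0703_co; found by helper41, checked by helper65)
-/

namespace Pool.Agent.H41.ME

theorem c7 : chkM 7 131 24 [10,22,38,47,58,70,91,108] [24,30,29,31,28,27,26,25] [2,5,0,6,7,1,3,4] = true := by
  decide +kernel

theorem c13 : chkM 13 8219 80 [186,1872,4483,5082,5443,5466,5604,7760] [81,80,84,82,86,87,85,83] [2,6,0,5,7,3,1,4] = true := by
  decide +kernel

theorem c17 : chkM 17 131081 24 [6486,9303,9317,27030,27901,38505,121790,126356] [25,24,27,29,30,26,28,31]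
    [6,3,4,1,2,7,0,5] = true := by
  decide +kernel

theorem c19 : chkM 19 524327 72 [20,22129,211483,254002,314082,323560,377294,473937] [78,74,76,77,79,73,75,72]
    [6,4,5,7,1,2,0,3] = true := by
  decide +kernel

theorem c31 : chkM 31 2147483657 24 [262146,262174,264190,786430,536606722,698328479,1440767584,2147221537]
    [24,27,29,30,26,25,31,28] [2,3,0,1,6,7,4,5] = true := by
  decide +kernel

end Pool.Agent.H41.ME
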