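import Pool.Agent.H90.DE.Root

set_option autoImplicit false

/-!
# [H41 ME CrtD] certificates, definition (MP_2f0703_co, helper65)
-/

namespace Pool.Agent.H41.ME

open Pool.Agent.H90.DE

/-- the exponents, continued by `e 8 = e 0 + (2 ^ k - 1)` -/
def ee (k : ℕ) (e : List ℕ) (i : ℕ) : ℕ := if i = 8 then e.getD 0 0 + (2 ^ k - 1) else e.getD i 0

/-- the check of a certificate: `f` a polynomial of degree `k`, `u` the block, `2 ^ e = q`, `q ^^^ 5 = q (s i)` -/
def chkM (k f u : ℕ) (e q s : List ℕ) : Bool :=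
  decide (7 ≤ k) && decide (2 ^ k ≤ f) && decide (f < 2 ^ (k + 1)) && decide (u < 2 ^ k) &&
  decide (powm k f (k + 1) 2 (2 ^ k) = 2) &&
  ((List.range 8).all fun i => decide (e.getD i 0 < 2 ^ k) && decide (powm k f k 2 (e.getD i 0) = q.getD i 0)) &&
  ((List.range 8).all fun i => decide (q.getD i 0 ^^^ 5 = q.getD (s.getD i 0) 0) && decide (s.getD i 0 < 8)) &&
  ((List.range 8).all fun i => decide (ee k e i < ee k e (i + 1))) &&
  ((List.range 8).all fun j => (List.range 8).any fun i => decide (q.getD i 0 = u ^^^ j)) &&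
  ((List.range 8).all fun i => (List.range 8).any fun j => decide (q.getD i 0 = u ^^^ j)) &&
  ((List.range 8).all fun i => (List.range 8).any fun n => decide ((fun j => (s.getD j 0 + 1) % 8)^[n] i = 0)) &&
  ((List.range 56).all fun j => decide (powm k f k (8 + j) (2 ^ k - 1) = 1)) && decide (powm k f k 2 (2 ^ k - 1) = 1) &&
  decide (powm k f k 3 (2 ^ k - 1) = 1) && decide (powm k f k 2 2 = 4) && decide (powm k f k 2 3 = 8) &&
  decide (powm k f k 2 4 = 16) && decide (powm k f k 2 5 = 32)

end Pool.Agent.H41.ME
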