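import Pool.Agent.H41.ME.Fr

/-!
# D-type latin squares of order `2 ^ k` from one block: not group based (helper50)
-/

set_option autoImplicit false

namespace Pool.Agent.H41.ME

namespace Ngr

variable {F : Type} [Field F]

theorem blk_iff (a u z : F) : Blk a u (u + z) ↔ Blk a 0 z := by
  unfold Blk
  refine or_congr ?_ (or_congr ?_ (or_congr ?_ (or_congr ?_ (or_congr ?_ (or_congr ?_ (or_congr ?_ ?_)))))) <;>
    constructor <;> intro h <;> linear_combination h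

theorem f_out (a u z x : F) (hx : x = u + z) (h : ¬ Blk a 0 z) : f a u x = a * (u + z) := by
  subst hx
  unfold f
  rw [if_neg (fun h' => h ((blk_iff a u z).1 h')), add_zero]

theorem f_in (a u x : F) (hx : x = u) : f a u x = a * u + (a ^ 3 + a) := by
  subst hx
  unfold f
  rw [if_pos (show Blk a x x from Or.inl rfl)]

end Ngr

open Ngr in
theorem ngr : NgrStmt := by
  intro F _ h2 a u ha ha1 h3 h4 h5 h34 h35 h45 h345
  rintro ⟨G, _, r, c, s, H⟩
  have quad : ∀ i1 i2 j1 j2 : F, s (i2 + f a u (j2 - i2)) =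
      s (i2 + f a u (j1 - i2)) * (s (i1 + f a u (j1 - i1)))⁻¹ * s (i1 + f a u (j2 - i1)) := by
    intro i1 i2 j1 j2
    rw [H, H, H, H]
    group
  have q1 := quad (a ^ 4) 0 (u + a ^ 3 + a ^ 5) (u + a ^ 3)
  have q2 := quad 0 (a ^ 4) (u + a ^ 4 + a ^ 5) (u + a ^ 4)
  rw [f_out a u (a ^ 3) (u + a ^ 3 - 0) (by ring) h3,
    f_out a u (a ^ 3 + a ^ 5) (u + a ^ 3 + a ^ 5 - 0) (by ring) h35,
    f_out a u (a ^ 3 + a ^ 4 + a ^ 5) (u + a ^ 3 + a ^ 5 - a ^ 4) (by linear_combination (-(a ^ 4)) * h2) h345,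
    f_out a u (a ^ 3 + a ^ 4) (u + a ^ 3 - a ^ 4) (by linear_combination (-(a ^ 4)) * h2) h34] at q1
  rw [f_in a u (u + a ^ 4 - a ^ 4) (by ring),
    f_out a u (a ^ 5) (u + a ^ 4 + a ^ 5 - a ^ 4) (by ring) h5,
    f_out a u (a ^ 4 + a ^ 5) (u + a ^ 4 + a ^ 5 - 0) (by ring) h45,
    f_out a u (a ^ 4) (u + a ^ 4 - 0) (by ring) h4] at q2
  have e1 : a ^ 4 + a * (u + a ^ 5) = 0 + a * (u + (a ^ 3 + a ^ 5)) := by ring
  have e2 : 0 + a * (u + (a ^ 4 + a ^ 5)) = a ^ 4 + a * (u + (a ^ 3 + a ^ 4 + a ^ 5)) := by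
    linear_combination (-(a ^ 4)) * h2
  have e3 : 0 + a * (u + a ^ 4) = a ^ 4 + a * (u + (a ^ 3 + a ^ 4)) := by
    linear_combination (-(a ^ 4)) * h2
  rw [e1, e2, e3, ← q1] at q2
  have e4 := s.injective q2
  have e5 : a * (a + 1) ^ 2 = 0 := by linear_combination e4 + a ^ 2 * h2
  rcases mul_eq_zero.1 e5 with h | h
  · exact ha h
  · have h6 : a + 1 = 0 := by
      have := pow_eq_zero_iff (two_ne_zero) |>.1 h
      exact this
    exact ha1 (by linear_combination h6 - h2)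

end Pool.Agent.H41.ME
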