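import Pool.Agent.H41.ME.Fr

/-!
# The orbit (MP_2f0703_co): every nonzero element reaches `a ^ e 0`
-/

set_option autoImplicit false

namespace Pool.Agent.H41.ME

theorem orb : OrbStmt := by
  intro F _ h2 a u M hM ha hpow hgen e σ he he8 hσ8 hB hσ hit x hx
  have hmono : ∀ i j, i < j → j ≤ 8 → e i < e j := by
    intro i j hij hj
    induction j with
    | zero => omega
    | succ j ih =>
      have h1 := he j (by omega)
      rcases Nat.lt_or_ge i j with h | h
      · exact (ih h (by omega)).trans h1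
      · have h3 : i = j := by omega
        subst h3
        exact h1
  have hmono' : ∀ i j, i ≤ j → j ≤ 8 → e i ≤ e j := by
    intro i j hij hj
    rcases Nat.lt_or_ge i j with h | h
    · exact (hmono i j h hj).le
    · have h3 : i = j := by omega
      rw [h3]
  have htr : ∀ x y z, (∃ n, (f a u)^[n] x = y) → (∃ n, (f a u)^[n] y = z) → ∃ n, (f a u)^[n] x = z := by
    rintro x y z ⟨n, hn⟩ ⟨m, hm⟩
    exact ⟨m + n, by rw [Function.iterate_add_apply, hn, hm]⟩
  have arc : ∀ j < 8, ∀ d i : ℕ, e j < i → i + d = e (j + 1) → ∃ n, (f a u)^[n] (a ^ i) = a ^ e (j + 1) := by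
    intro j hj d
    induction d with
    | zero =>
      intro i h1 h3
      refine ⟨0, ?_⟩
      rw [Function.iterate_zero_apply, ← h3, add_zero]
    | succ d ih =>
      intro i h1 h3
      have hnb : ¬ Blk a u (a ^ i) := by
        rw [hB]
        rintro ⟨i', hi', h4⟩
        have h5 := (hpow _ _).1 h4
        have h6 := hmono' 0 i' (by omega) (by omega)
        have h7 := hmono i' 8 hi' le_rfl
        have h8 := hmono' 0 j (by omega) (by omega)
        have h9 := hmono' (j + 1) 8 (by omega) le_rfl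
        have h10 : i = e i' := by
          have h11 := Nat.modEq_iff_dvd.1 h5
          have h12 : ((e i' : ℕ) : ℤ) - (i : ℤ) = 0 := by
            refine Int.eq_zero_of_abs_lt_dvd h11 ?_
            rw [abs_lt]
            constructor <;> omega
          omega
        rcases Nat.lt_or_ge j i' with h | h
        · have := hmono' (j + 1) i' (by omega) (by omega)
          omega
        · have := hmono' i' j h (by omega)
          omega
      have hf : f a u (a ^ i) = a ^ (i + 1) := by
        unfold f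
        rw [if_neg hnb, add_zero, pow_succ, mul_comm]
      obtain ⟨n, hn⟩ := ih (i + 1) (by omega) (by omega)
      exact ⟨n + 1, by rw [Function.iterate_succ_apply, hf, hn]⟩
  have hmod : ∀ j < 8, a ^ e (j + 1) = a ^ e ((j + 1) % 8) := by
    intro j hj
    rcases Nat.lt_or_ge (j + 1) 8 with h | h
    · rw [Nat.mod_eq_of_lt h]
    · have h3 : j + 1 = 8 := by omega
      rw [h3, he8, Nat.mod_self]
      exact (hpow _ _).2 (Nat.add_modEq_right)
  have step : ∀ j < 8, ∃ n, (f a u)^[n] (a ^ e j) = a ^ e ((σ j + 1) % 8) := by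
    intro j hj
    have hb : Blk a u (a ^ e j) := (hB _).2 ⟨j, hj, rfl⟩
    have hf : f a u (a ^ e j) = a ^ (e (σ j) + 1) := by
      have h3 := hσ j hj
      unfold f
      rw [if_pos hb, pow_succ' a (e (σ j)), ← h3]
      ring
    have h4 := he (σ j) (hσ8 j hj)
    obtain ⟨n, hn⟩ := arc (σ j) (hσ8 j hj) (e (σ j + 1) - (e (σ j) + 1)) (e (σ j) + 1) (by omega) (by omega)
    refine ⟨n + 1, ?_⟩
    rw [Function.iterate_succ_apply, hf, hn, hmod _ (hσ8 j hj)]
  have iter : ∀ n : ℕ, ∀ j < 8, ∃ m, (f a u)^[m] (a ^ e j) = a ^ e ((fun j => (σ j + 1) % 8)^[n] j) := by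
    intro n
    induction n with
    | zero => intro j _; exact ⟨0, rfl⟩
    | succ n ih =>
      intro j hj
      rw [Function.iterate_succ_apply]
      exact htr _ _ _ (step j hj) (ih _ (Nat.mod_lt _ (by norm_num)))
  have fin : ∀ j < 8, ∃ m, (f a u)^[m] (a ^ e j) = a ^ e 0 := by
    intro j hj
    obtain ⟨n, hn⟩ := hit j hj
    obtain ⟨m, hm⟩ := iter n j hj
    exact ⟨m, by rw [hm, hn]⟩
  obtain ⟨i, rfl⟩ := hgen x hx
  have hlt : (i + (e 0 + 1) * (M - 1)) % M < M := Nat.mod_lt _ hM
  set r := (i + (e 0 + 1) * (M - 1)) % M with hr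
  have hi : a ^ i = a ^ (e 0 + 1 + r) := by
    apply (hpow _ _).2
    have h3 : e 0 + 1 + r ≡ e 0 + 1 + (i + (e 0 + 1) * (M - 1)) [MOD M] :=
      Nat.ModEq.add_left _ (Nat.mod_modEq _ _)
    have h4 : e 0 + 1 + (i + (e 0 + 1) * (M - 1)) = i + M * (e 0 + 1) := by
      obtain ⟨N, rfl⟩ : ∃ N, M = N + 1 := ⟨M - 1, by omega⟩
      rw [Nat.add_sub_cancel]
      ring
    rw [h4] at h3
    have h5 : i + M * (e 0 + 1) ≡ i [MOD M] := by
      unfold Nat.ModEq
      rw [Nat.add_mul_mod_self_left]
    exact (h3.trans h5).symm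
  rw [hi]
  obtain ⟨j, hj, h3, h4⟩ : ∃ j < 8, e j < e 0 + 1 + r ∧ e 0 + 1 + r ≤ e (j + 1) := by
    by_contra hc
    push Not at hc
    have h5 : ∀ j, j ≤ 8 → e j < e 0 + 1 + r := by
      intro j
      induction j with
      | zero => intro _; omega
      | succ j ih => intro hj; exact hc j (by omega) (ih (by omega))
    have h6 := h5 8 le_rfl
    omega
  refine htr _ _ _ (arc j hj (e (j + 1) - (e 0 + 1 + r)) (e 0 + 1 + r) h3 (by omega)) ?_
  rw [hmod j hj]
  exact fin _ (Nat.mod_lt _ (by norm_num))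

end Pool.Agent.H41.ME
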