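import Pool.Agent.H41.ME.Inj
import Pool.Agent.H41.ME.Ngr
import Pool.Agent.H41.ME.Orb
import Pool.Agent.H41.ME.Trn
import Pool.Agent.H41.ME.CrtD

set_option autoImplicit false

/-!
# [H41 ME CrtT] a certificate gives a square (MP_2f0703_co, helper65)
-/

namespace Pool.Agent.H41.ME

open Pool.Agent.H90.DE

theorem of_chkM {k fp u : ℕ} {e q s : List ℕ} (h : chkM k fp u e q s = true) (hp : (2 ^ k - 1).Prime) :
    ∃ L : Fin (2 ^ k) → Equiv.Perm (Fin (2 ^ k)),
      (∀ j, Function.Injective (fun i => L i j)) ∧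
      (∀ i, (∃! x, L i x = x) ∧ ∀ x y, L i x ≠ x → L i y ≠ y → ∃ n : ℕ, ((L i) ^ n) x = y) ∧
      (¬ ∃ (G : Type) (_ : Group G) (r c s : Fin (2 ^ k) ≃ G), ∀ i j, s (L i j) = r i * c j) ∧
      ∀ j, Function.Injective (fun i => (L i * L i) j) := by
  classical
  unfold chkM at h
  simp only [Bool.and_eq_true, decide_eq_true_eq, List.all_eq_true, List.any_eq_true, List.mem_range] at h
  obtain ⟨⟨⟨⟨⟨⟨⟨⟨⟨⟨⟨⟨⟨⟨⟨⟨⟨hk, hf1⟩, hf2⟩, hu⟩, c0⟩, ce⟩, cs⟩, cm⟩, cb1⟩, cb2⟩, cn⟩, c56⟩, c2⟩, c3⟩, d2⟩, d3⟩, d4⟩, d5⟩ := h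
  haveI : Fact (Nat.Prime 2) := ⟨Nat.prime_two⟩
  let F := GaloisField 2 k
  letI : Fintype F := Fintype.ofFinite F
  have hcard : Fintype.card F = 2 ^ k := by
    rw [← Nat.card_eq_fintype_card]
    exact GaloisField.card 2 k (by omega)
  have two : (2 : F) = 0 := by
    have := CharP.cast_eq_zero F 2
    exact_mod_cast this
  obtain ⟨t, ht⟩ := exists_root F k fp (by omega) hcard hf1 hf2 c0
  have hk1 : 1 ≤ k := by omega
  have h2k : 2 ^ 7 ≤ 2 ^ k := Nat.pow_le_pow_right (by norm_num) hk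
  have h128 : 128 ≤ 2 ^ k := by simpa using h2k
  have P : ∀ a e : ℕ, a < 2 ^ k → e < 2 ^ k → powm k fp k a e < 2 ^ k ∧ ev t k (powm k fp k a e) = (ev t k a) ^ e :=
    fun a e ha he => ev_powm two t k fp hk1 hf1 hf2 ht k a e ha he
  have X : ∀ a b : ℕ, ev t k (a ^^^ b) = ev t k a + ev t k b := fun a b => ev_xor two t k a b
  have e0 : ev t k 0 = 0 := by
    have h1 := X 0 0
    rw [Nat.xor_self] at h1
    linear_combination -h1
  have e1g : ∀ n : ℕ, 1 ≤ n → ev t n 1 = 1 := by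
    intro n hn
    obtain ⟨j, rfl⟩ : ∃ j, n = j + 1 := ⟨n - 1, by omega⟩
    have h0 : ev t j 0 = 0 := by
      have h1 := ev_xor two t j 0 0
      rw [Nat.xor_self] at h1
      linear_combination -h1
    show (if 1 % 2 = 1 then (1 : F) else 0) + t * ev t j (1 / 2) = 1
    rw [show 1 / 2 = 0 from rfl, h0]
    simp
  have e1 : ev t k 1 = 1 := e1g k hk1
  obtain ⟨a, ha⟩ : ∃ a : F, a = ev t k 2 := ⟨_, rfl⟩
  have hnk : 2 ^ k - 1 < 2 ^ k := by omega
  have hne : ∀ b : ℕ, b < 2 ^ k → powm k fp k b (2 ^ k - 1) = 1 → ev t k b ≠ 0 := by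
    intro b hb h1 h0
    have h3 := (P b _ hb hnk).2
    rw [h1, e1, h0, zero_pow (by omega)] at h3
    exact one_ne_zero h3
  have ha0 : a ≠ 0 := ha ▸ hne 2 (by omega) c2
  have e3 : ev t k 3 = a + 1 := by
    have := X 2 1
    rw [show 2 ^^^ 1 = 3 from rfl] at this
    rw [this, e1, ha]
  have ha1 : a ≠ 1 := by
    intro h1
    refine hne 3 (by omega) c3 ?_
    rw [e3, h1]
    linear_combination two
  have e4 : ev t k 4 = a ^ 2 := by rw [← d2, (P 2 2 (by omega) (by omega)).2, ha]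
  have e8 : ev t k 8 = a ^ 3 := by rw [← d3, (P 2 3 (by omega) (by omega)).2, ha]
  have e16 : ev t k 16 = a ^ 4 := by rw [← d4, (P 2 4 (by omega) (by omega)).2, ha]
  have e32 : ev t k 32 = a ^ 5 := by rw [← d5, (P 2 5 (by omega) (by omega)).2, ha]
  have e5 : ev t k 5 = a ^ 2 + 1 := by
    have := X 4 1
    rw [show 4 ^^^ 1 = 5 from rfl] at this
    rw [this, e1, e4]
  have e6 : ev t k 6 = a ^ 2 + a := by
    have := X 4 2
    rw [show 4 ^^^ 2 = 6 from rfl] at this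
    rw [this, ← ha, e4]
  have e7 : ev t k 7 = a ^ 2 + a + 1 := by
    have := X 6 1
    rw [show 6 ^^^ 1 = 7 from rfl] at this
    rw [this, e1, e6]
  -- the block
  have blk : ∀ (v : ℕ) (x : F), Blk a (ev t k v) x ↔ ∃ j < 8, x = ev t k (v ^^^ j) := by
    intro v x
    constructor
    · rintro (h | h | h | h | h | h | h | h)
      · exact ⟨0, by norm_num, by rw [X, e0, h, add_zero]⟩
      · exact ⟨1, by norm_num, by rw [X, e1, h]⟩
      · exact ⟨2, by norm_num, by rw [X, ← ha, h]⟩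
      · exact ⟨3, by norm_num, by rw [X, e3, h]; ring⟩
      · exact ⟨4, by norm_num, by rw [X, e4, h]⟩
      · exact ⟨5, by norm_num, by rw [X, e5, h]; ring⟩
      · exact ⟨6, by norm_num, by rw [X, e6, h]; ring⟩
      · exact ⟨7, by norm_num, by rw [X, e7, h]; ring⟩
    · rintro ⟨j, hj, h⟩
      unfold Blk
      interval_cases j
      · exact Or.inl (by rw [h, X, e0, add_zero])
      · exact Or.inr (Or.inl (by rw [h, X, e1]))
      · exact Or.inr (Or.inr (Or.inl (by rw [h, X, ← ha])))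
      · exact Or.inr (Or.inr (Or.inr (Or.inl (by rw [h, X, e3]; ring))))
      · exact Or.inr (Or.inr (Or.inr (Or.inr (Or.inl (by rw [h, X, e4])))))
      · exact Or.inr (Or.inr (Or.inr (Or.inr (Or.inr (Or.inl (by rw [h, X, e5]; ring))))))
      · exact Or.inr (Or.inr (Or.inr (Or.inr (Or.inr (Or.inr (Or.inl (by rw [h, X, e6]; ring)))))))
      · exact Or.inr (Or.inr (Or.inr (Or.inr (Or.inr (Or.inr (Or.inr (by rw [h, X, e7]; ring)))))))
  have nb : ∀ m : ℕ, m < 8 → 1 ≤ m → ¬ Blk a 0 (ev t k (8 * m)) := by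
    intro m hm hm1 hb
    rw [← e0] at hb
    obtain ⟨j, hj, h⟩ := (blk 0 _).1 hb
    rw [Nat.zero_xor] at h
    have h3 : 8 * m ^^^ j = 8 + (8 * m + j - 8) := by
      interval_cases m <;> interval_cases j <;> rfl
    refine hne (8 + (8 * m + j - 8)) (by omega) (c56 _ (by omega)) ?_
    rw [← h3, X, h]
    linear_combination (ev t k j) * two
  -- the group
  have hM : 0 < 2 ^ k - 1 := by omega
  let b : Fˣ := Units.mk0 a ha0
  have hcu : Nat.card Fˣ = 2 ^ k - 1 := by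
    rw [Nat.card_eq_fintype_card, Fintype.card_units, hcard]
  haveI : Fact (2 ^ k - 1).Prime := ⟨hp⟩
  have hb1 : b ≠ 1 := fun h => ha1 (congrArg Units.val h)
  have hord : orderOf b = 2 ^ k - 1 := by
    refine orderOf_eq_prime ?_ hb1
    rw [← hcu]
    exact pow_card_eq_one'
  have hpow : ∀ m n : ℕ, a ^ m = a ^ n ↔ m ≡ n [MOD (2 ^ k - 1)] := by
    intro m n
    rw [← hord, ← pow_eq_pow_iff_modEq]
    constructor
    · intro h
      exact Units.ext (by rw [Units.val_pow_eq_pow_val, Units.val_pow_eq_pow_val]; exact h)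
    · intro h
      have := congrArg Units.val h
      rw [Units.val_pow_eq_pow_val, Units.val_pow_eq_pow_val] at this
      exact this
  have hgen : ∀ x : F, x ≠ 0 → ∃ n : ℕ, x = a ^ n := by
    intro x hx
    obtain ⟨n, hn⟩ := mem_powers_of_prime_card (p := 2 ^ k - 1) (g := b) (g' := Units.mk0 x hx) hcu hb1
    have h5 : (b ^ n : Fˣ) = Units.mk0 x hx := hn
    have h6 := congrArg Units.val h5
    rw [Units.val_pow_eq_pow_val] at h6
    exact ⟨n, h6.symm⟩
  have hq : ∀ i < 8, a ^ (e.getD i 0) = ev t k (q.getD i 0) := by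
    intro i hi
    rw [← (ce i hi).2, (P 2 _ (by omega) (ce i hi).1).2, ha]
  have heq : ∀ i < 8, ee k e i = e.getD i 0 := by
    intro i hi
    unfold ee
    rw [if_neg (by omega)]
  have hblk : ∀ x, Blk a (ev t k u) x ↔ ∃ i < 8, x = a ^ ee k e i := by
    intro x
    rw [blk]
    constructor
    · rintro ⟨j, hj, h⟩
      obtain ⟨i, hi, h1⟩ := cb1 j hj
      exact ⟨i, hi, by rw [heq i hi, hq i hi, h1, h]⟩
    · rintro ⟨i, hi, h⟩
      obtain ⟨j, hj, h1⟩ := cb2 i hi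
      exact ⟨j, hj, by rw [h, heq i hi, hq i hi, h1]⟩
  have horb := orb F two a (ev t k u) (2 ^ k - 1) hM ha0 hpow hgen (ee k e) (fun i => s.getD i 0) cm
    (by
      rw [heq 0 (by norm_num)]
      unfold ee
      rw [if_pos rfl])
    (fun i hi => (cs i hi).2) hblk
    (by
      intro i hi
      have h1 := (cs i hi).1
      show a ^ ee k e i + a ^ 2 + 1 = a ^ ee k e (s.getD i 0)
      rw [heq i hi, heq _ (cs i hi).2, hq i hi, hq _ (cs i hi).2, ← h1, X, e5]
      ring)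
    (fun i hi => by
      obtain ⟨n, -, hn⟩ := cn i hi
      exact ⟨n, hn⟩)
  obtain ⟨i1, i2, i3⟩ := inj F two a (ev t k u) ha0 ha1
  have z0 : f a (ev t k u) 0 = 0 := by
    unfold f
    rw [if_neg, mul_zero, add_zero]
    intro h
    obtain ⟨i, -, h1⟩ := (hblk 0).1 h
    exact pow_ne_zero _ ha0 h1.symm
  have x24 : ev t k 24 = a ^ 3 + a ^ 4 := by
    have := X 8 16
    rw [show 8 ^^^ 16 = 24 from rfl] at this
    rw [this, e8, e16]
  have x40 : ev t k 40 = a ^ 3 + a ^ 5 := by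
    have := X 8 32
    rw [show 8 ^^^ 32 = 40 from rfl] at this
    rw [this, e8, e32]
  have x48 : ev t k 48 = a ^ 4 + a ^ 5 := by
    have := X 16 32
    rw [show 16 ^^^ 32 = 48 from rfl] at this
    rw [this, e16, e32]
  have x56 : ev t k 56 = a ^ 3 + a ^ 4 + a ^ 5 := by
    have := X 24 32
    rw [show 24 ^^^ 32 = 56 from rfl] at this
    rw [this, x24, e32]
  refine trn k F two hcard (f a (ev t k u)) z0 i1 i2 i3 ⟨_, horb⟩ ?_
  refine ngr F two a (ev t k u) ha0 ha1 ?_ ?_ ?_ ?_ ?_ ?_ ?_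
  · rw [← e8]; exact nb 1 (by norm_num) (by norm_num)
  · rw [← e16]; exact nb 2 (by norm_num) (by norm_num)
  · rw [← e32]; exact nb 4 (by norm_num) (by norm_num)
  · rw [← x24]; exact nb 3 (by norm_num) (by norm_num)
  · rw [← x40]; exact nb 5 (by norm_num) (by norm_num)
  · rw [← x48]; exact nb 6 (by norm_num) (by norm_num)
  · rw [← x56]; exact nb 7 (by norm_num) (by norm_num)

end Pool.Agent.H41.ME
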