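import Mathlib

/-!
# D-type latin squares of order `2 ^ k` from one block (MP_2f0703_co, helper41): frames

`F` a field of characteristic `2`, `W = {0, 1, a, a + 1, a^2, a^2 + 1, a^2 + a, a^2 + a + 1}`, `f x = a x` outside `u + W` and
`f x = a x + a^3 + a` on `u + W`.
-/

set_option autoImplicit false

namespace Pool.Agent.H41.ME

/-- `x` lies in the block `u + {0, 1, a, a + 1, a^2, a^2 + 1, a^2 + a, a^2 + a + 1}` -/
def Blk {F : Type} [Field F] (a u x : F) : Prop :=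
  x = u ∨ x = u + 1 ∨ x = u + a ∨ x = u + a + 1 ∨ x = u + a ^ 2 ∨ x = u + a ^ 2 + 1 ∨ x = u + a ^ 2 + a ∨
    x = u + a ^ 2 + a + 1

open Classical in
/-- multiplication by `a`, changed on the block by the constant `a^3 + a` -/
noncomputable def f {F : Type} [Field F] (a u x : F) : F := a * x + if Blk a u x then a ^ 3 + a else 0

/-- `f`, `f + id`, `f ∘ f + id` are injective. Sketch: `Blk` is invariant under adding `1`, `a`, `a^2` (and sums). If `f x = f y` and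
`x ≠ y` then exactly one of `x, y` is in the block and `a (x + y) = a (a + 1)^2`, `x + y = a^2 + 1`, so both are; `f + id`: `(a+1)(x+y) = a(a+1)^2`,
`x + y = a^2 + a`; `f (f x) + x = (a^2+1) x + a [x in block] (a^3+a) + [f x in block] (a^3+a)`: `x + y` is `a^2`, `a` or `a^2 + a`, then `x` is in the block iff
`y` is, and `f x + f y = a (x + y)`; only `x + y = a` is left (the second bracket alone), where `f x + f y = a^2` is in `W`, contradiction. -/
def InjStmt : Prop := ∀ (F : Type) [Field F], (2 : F) = 0 → ∀ a u : F, a ≠ 0 → a ≠ 1 →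
  (∀ x y, f a u x = f a u y → x = y) ∧ (∀ x y, f a u x + x = f a u y + y → x = y) ∧
    ∀ x y, f a u (f a u x) + x = f a u (f a u y) + y → x = y

/-- The orbit. Sketch: `x = a ^ i` with `e 0 < i ≤ e 0 + M = e 8` (shift by multiples of `M`), so `e j < i ≤ e (j + 1)` for a `j < 8`, and
`f^[e (j+1) - i] x = a ^ e (j + 1) = a ^ e ((j + 1) % 8)` as the powers in between are not in the block. For `x = a ^ e j`:
`f x = a * a ^ e (σ j) = a ^ (e (σ j) + 1)` (char 2, `f x = a (x + a^2 + 1)`), which is in the arc of `σ j` and so reaches `a ^ e ((σ j + 1) % 8)`. Iterate. -/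
def OrbStmt : Prop := ∀ (F : Type) [Field F], (2 : F) = 0 → ∀ (a u : F) (M : ℕ), 0 < M → a ≠ 0 →
  (∀ m n : ℕ, a ^ m = a ^ n ↔ m ≡ n [MOD M]) → (∀ x : F, x ≠ 0 → ∃ n : ℕ, x = a ^ n) →
  ∀ e σ : ℕ → ℕ, (∀ i < 8, e i < e (i + 1)) → e 8 = e 0 + M → (∀ i < 8, σ i < 8) →
  (∀ x, Blk a u x ↔ ∃ i < 8, x = a ^ e i) → (∀ i < 8, a ^ e i + a ^ 2 + 1 = a ^ e (σ i)) →
  (∀ i < 8, ∃ n : ℕ, (fun j => (σ j + 1) % 8)^[n] i = 0) →
  ∀ x : F, x ≠ 0 → ∃ n : ℕ, (f a u)^[n] x = a ^ e 0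

/-- Not group based. Sketch: rows `i1 = a^4`, `i2 = 0`, columns `j1 = u + a^3 + a^5`, `j2 = u + a^3`; second quadrangle: rows `+ a^4`, columns `+ (a^3 + a^4)`. The
eight arguments `j + i` of `f` are `u + z`, `z` one of the seven elements and, for the last one, `0`; the linear parts of the entries agree, so three of the
entries agree and the last one differs by `a^3 + a ≠ 0`. In a group `s (L i2 j2) = s (L i2 j1) * (s (L i1 j1))⁻¹ * s (L i1 j2)`. -/
def NgrStmt : Prop := ∀ (F : Type) [Field F], (2 : F) = 0 → ∀ a u : F, a ≠ 0 → a ≠ 1 →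
  ¬ Blk a 0 (a ^ 3) → ¬ Blk a 0 (a ^ 4) → ¬ Blk a 0 (a ^ 5) → ¬ Blk a 0 (a ^ 3 + a ^ 4) → ¬ Blk a 0 (a ^ 3 + a ^ 5) →
  ¬ Blk a 0 (a ^ 4 + a ^ 5) → ¬ Blk a 0 (a ^ 3 + a ^ 4 + a ^ 5) →
  ¬ ∃ (G : Type) (_ : Group G) (r c s : F ≃ G), ∀ i j : F, s (i + f a u (j - i)) = r i * c j

/-- Transport to `Fin (2 ^ k)`: the proof of `main` in `Pool/Agent/Results/MP_2f0703_co/PrimeExponents.lean` with `g` in place of `f c b`
(there `W.reach` is a path from a fixed point to `x`; here a path from `x` to `b`; use that the permutation has finite order). -/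
def TrnStmt : Prop := ∀ (k : ℕ) (F : Type) [Field F] [Fintype F], (2 : F) = 0 → Fintype.card F = 2 ^ k → ∀ g : F → F, g 0 = 0 →
  (∀ x y, g x = g y → x = y) → (∀ x y, g x + x = g y + y → x = y) → (∀ x y, g (g x) + x = g (g y) + y → x = y) →
  (∃ b : F, ∀ x : F, x ≠ 0 → ∃ n : ℕ, g^[n] x = b) →
  (¬ ∃ (G : Type) (_ : Group G) (r c s : F ≃ G), ∀ i j : F, s (i + g (j - i)) = r i * c j) →
  ∃ L : Fin (2 ^ k) → Equiv.Perm (Fin (2 ^ k)),
    (∀ j, Function.Injective (fun i => L i j)) ∧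
    (∀ i, (∃! x, L i x = x) ∧ ∀ x y, L i x ≠ x → L i y ≠ y → ∃ n : ℕ, ((L i) ^ n) x = y) ∧
    (¬ ∃ (G : Type) (_ : Group G) (r c s : Fin (2 ^ k) ≃ G), ∀ i j, s (L i j) = r i * c j) ∧
    ∀ j, Function.Injective (fun i => (L i * L i) j)

end Pool.Agent.H41.ME
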