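import Pool.Agent.H41.ME.Fr

set_option autoImplicit false

/-!
# [H41 ME Inj] injectivity (MP_2f0703_co, helper65)
-/

namespace Pool.Agent.H41.ME

variable {F : Type} [Field F]

theorem blk_add (h2 : (2 : F) = 0) {a u x w : F} (hw : w = 1 ∨ w = a ∨ w = a ^ 2) (h : Blk a u x) :
    Blk a u (x + w) := by
  unfold Blk at h ⊢
  rcases hw with rfl | rfl | rfl <;> rcases h with h | h | h | h | h | h | h | h <;> rw [h]
  · exact Or.inr (Or.inl rfl)
  · exact Or.inl (by linear_combination h2)
  · exact Or.inr (Or.inr (Or.inr (Or.inl rfl)))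
  · exact Or.inr (Or.inr (Or.inl (by linear_combination h2)))
  · exact Or.inr (Or.inr (Or.inr (Or.inr (Or.inr (Or.inl rfl)))))
  · exact Or.inr (Or.inr (Or.inr (Or.inr (Or.inl (by linear_combination h2)))))
  · exact Or.inr (Or.inr (Or.inr (Or.inr (Or.inr (Or.inr (Or.inr rfl))))))
  · exact Or.inr (Or.inr (Or.inr (Or.inr (Or.inr (Or.inr (Or.inl (by linear_combination h2)))))))
  · exact Or.inr (Or.inr (Or.inl rfl))
  · exact Or.inr (Or.inr (Or.inr (Or.inl (by ring))))
  · exact Or.inl (by linear_combination w * h2)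
  · exact Or.inr (Or.inl (by linear_combination w * h2))
  · exact Or.inr (Or.inr (Or.inr (Or.inr (Or.inr (Or.inr (Or.inl rfl))))))
  · exact Or.inr (Or.inr (Or.inr (Or.inr (Or.inr (Or.inr (Or.inr (by ring)))))))
  · exact Or.inr (Or.inr (Or.inr (Or.inr (Or.inl (by linear_combination w * h2)))))
  · exact Or.inr (Or.inr (Or.inr (Or.inr (Or.inr (Or.inl (by linear_combination w * h2))))))
  · exact Or.inr (Or.inr (Or.inr (Or.inr (Or.inl rfl))))
  · exact Or.inr (Or.inr (Or.inr (Or.inr (Or.inr (Or.inl (by ring))))))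
  · exact Or.inr (Or.inr (Or.inr (Or.inr (Or.inr (Or.inr (Or.inl (by ring)))))))
  · exact Or.inr (Or.inr (Or.inr (Or.inr (Or.inr (Or.inr (Or.inr (by ring)))))))
  · exact Or.inl (by linear_combination a ^ 2 * h2)
  · exact Or.inr (Or.inl (by linear_combination a ^ 2 * h2))
  · exact Or.inr (Or.inr (Or.inl (by linear_combination a ^ 2 * h2)))
  · exact Or.inr (Or.inr (Or.inr (Or.inl (by linear_combination a ^ 2 * h2))))

theorem blk_add2 (h2 : (2 : F) = 0) {a u x w : F} (hw : w = 1 ∨ w = a ∨ w = a ^ 2) {v : F}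
    (hv : v = 1 ∨ v = a ∨ v = a ^ 2) (h : Blk a u x) : Blk a u (x + (w + v)) := by
  rw [← add_assoc]
  exact blk_add h2 hv (blk_add h2 hw h)

theorem inj : InjStmt := by
  classical
  intro F _ h2 a u ha ha1
  have ha1' : a + 1 ≠ 0 := by
    intro h
    exact ha1 (by linear_combination h - h2)
  have p1 : ∀ x y : F, x + y = a ^ 2 + 1 → Blk a u x → Blk a u y := by
    intro x y h hx
    have : y = x + (a ^ 2 + 1) := by linear_combination h - x * h2
    rw [this]
    exact blk_add2 h2 (Or.inr (Or.inr rfl)) (Or.inl rfl) hx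
  have p2 : ∀ x y : F, x + y = a ^ 2 + a → Blk a u x → Blk a u y := by
    intro x y h hx
    have : y = x + (a ^ 2 + a) := by linear_combination h - x * h2
    rw [this]
    exact blk_add2 h2 (Or.inr (Or.inr rfl)) (Or.inr (Or.inl rfl)) hx
  have p3 : ∀ x y : F, x + y = a ^ 2 → Blk a u x → Blk a u y := by
    intro x y h hx
    have : y = x + a ^ 2 := by linear_combination h - x * h2
    rw [this]
    exact blk_add h2 (Or.inr (Or.inr rfl)) hx
  have p4 : ∀ x y : F, x + y = a → Blk a u x → Blk a u y := by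
    intro x y h hx
    have : y = x + a := by linear_combination h - x * h2
    rw [this]
    exact blk_add h2 (Or.inr (Or.inl rfl)) hx
  have sw : ∀ x y : F, x + y = 0 → x = y := by
    intro x y h
    linear_combination h - y * h2
  have fin : ∀ x : F, Blk a u x → f a u x = a * x + (a ^ 3 + a) := by
    intro x hx
    unfold f
    rw [if_pos hx]
  have fout : ∀ x : F, ¬ Blk a u x → f a u x = a * x := by
    intro x hx
    unfold f
    rw [if_neg hx, add_zero]
  refine ⟨?_, ?_, ?_⟩
  · -- `f`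
    have key : ∀ x y : F, Blk a u x → ¬ Blk a u y → f a u x ≠ f a u y := by
      intro x y hx hy h
      rw [fin x hx, fout y hy] at h
      have h3 : a * (x + y + (a ^ 2 + 1)) = 0 := by linear_combination h + a * y * h2
      have h4 : x + y + (a ^ 2 + 1) = 0 := (mul_eq_zero.1 h3).resolve_left ha
      exact hy (p1 x y (sw _ _ h4) hx)
    intro x y h
    by_cases hx : Blk a u x <;> by_cases hy : Blk a u y
    · rw [fin x hx, fin y hy] at h
      exact mul_left_cancel₀ ha (by linear_combination h)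
    · exact absurd h (key x y hx hy)
    · exact absurd h.symm (key y x hy hx)
    · rw [fout x hx, fout y hy] at h
      exact mul_left_cancel₀ ha h
  · have key : ∀ x y : F, Blk a u x → ¬ Blk a u y → f a u x + x ≠ f a u y + y := by
      intro x y hx hy h
      rw [fin x hx, fout y hy] at h
      have h3 : (a + 1) * (x + y + (a ^ 2 + a)) = 0 := by
        linear_combination h + ((a + 1) * y + a ^ 2) * h2
      have h4 : x + y + (a ^ 2 + a) = 0 := (mul_eq_zero.1 h3).resolve_left ha1'
      exact hy (p2 x y (sw _ _ h4) hx)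
    intro x y h
    by_cases hx : Blk a u x <;> by_cases hy : Blk a u y
    · rw [fin x hx, fin y hy] at h
      exact mul_left_cancel₀ ha1' (by linear_combination h)
    · exact absurd h (key x y hx hy)
    · exact absurd h.symm (key y x hy hx)
    · rw [fout x hx, fout y hy] at h
      exact mul_left_cancel₀ ha1' (by linear_combination h)
  · have hc : ∀ D k l : F, (a ^ 2 + 1) * D = a * (a ^ 3 + a) * k + (a ^ 3 + a) * l → D = a ^ 2 * k + a * l := by
      intro D k l h
      have h3 : (a + 1) * ((a + 1) * (D + (a ^ 2 * k + a * l))) = 0 := by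
        linear_combination h + (a * D + a ^ 4 * k + a ^ 3 * k + a ^ 2 * k + a ^ 3 * l + a ^ 2 * l + a * l) * h2
      have h4 := (mul_eq_zero.1 ((mul_eq_zero.1 h3).resolve_left ha1')).resolve_left ha1'
      exact sw _ _ h4
    -- values of `f (f x) + x`
    have vv : ∀ x : F, ∃ k l : F, (k = 0 ∧ ¬ Blk a u x ∨ k = 1 ∧ Blk a u x) ∧
        (l = 0 ∧ ¬ Blk a u (f a u x) ∨ l = 1 ∧ Blk a u (f a u x)) ∧
        f a u x = a * x + (a ^ 3 + a) * k ∧
        f a u (f a u x) + x = (a ^ 2 + 1) * x + a * (a ^ 3 + a) * k + (a ^ 3 + a) * l := by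
      intro x
      by_cases hx : Blk a u x <;> by_cases hy : Blk a u (f a u x)
      · refine ⟨1, 1, Or.inr ⟨rfl, hx⟩, Or.inr ⟨rfl, hy⟩, ?_, ?_⟩
        · rw [fin x hx, mul_one]
        · rw [fin _ hy, fin x hx]; ring
      · refine ⟨1, 0, Or.inr ⟨rfl, hx⟩, Or.inl ⟨rfl, hy⟩, ?_, ?_⟩
        · rw [fin x hx, mul_one]
        · rw [fout _ hy, fin x hx]; ring
      · refine ⟨0, 1, Or.inl ⟨rfl, hx⟩, Or.inr ⟨rfl, hy⟩, ?_, ?_⟩
        · rw [fout x hx]; ring
        · rw [fin _ hy, fout x hx]; ring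
      · refine ⟨0, 0, Or.inl ⟨rfl, hx⟩, Or.inl ⟨rfl, hy⟩, ?_, ?_⟩
        · rw [fout x hx]; ring
        · rw [fout _ hy, fout x hx]; ring
    have key : ∀ x y : F, f a u (f a u x) + x = f a u (f a u y) + y → Blk a u x → Blk a u y := by
      intro x y h hx
      obtain ⟨k, l, hk, hl, -, e1⟩ := vv x
      obtain ⟨k', l', hk', hl', -, e2⟩ := vv y
      rcases hk with ⟨-, hk⟩ | ⟨rfl, -⟩
      · exact absurd hx hk
      rcases hk' with ⟨rfl, hk'⟩ | ⟨-, hk'⟩
      · rw [e1, e2] at h
        have h3 := hc (x + y) 1 (l + l') (by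
          linear_combination h + ((a ^ 2 + 1) * y - (a ^ 3 + a) * l) * h2 - a * (a ^ 3 + a) * h2)
        rcases hl with ⟨rfl, -⟩ | ⟨rfl, -⟩ <;> rcases hl' with ⟨rfl, -⟩ | ⟨rfl, -⟩
        · exact p3 x y (by linear_combination h3) hx
        · exact p2 x y (by linear_combination h3) hx
        · exact p2 x y (by linear_combination h3) hx
        · exact p3 x y (by linear_combination h3 + a * h2) hx
      · exact hk'
    intro x y h
    have hxy : Blk a u x ↔ Blk a u y := ⟨key x y h, key y x h.symm⟩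
    obtain ⟨k, l, hk, hl, f1, e1⟩ := vv x
    obtain ⟨k', l', hk', hl', f2, e2⟩ := vv y
    have hkk : k = k' := by
      rcases hk with ⟨rfl, hk⟩ | ⟨rfl, hk⟩ <;> rcases hk' with ⟨rfl, hk'⟩ | ⟨rfl, hk'⟩
      · rfl
      · exact absurd (hxy.2 hk') hk
      · exact absurd (hxy.1 hk) hk'
      · rfl
    subst hkk
    rw [e1, e2] at h
    have h3 := hc (x + y) 0 (l + l') (by
      linear_combination h + ((a ^ 2 + 1) * y - (a ^ 3 + a) * l) * h2)
    rcases hl with ⟨rfl, hl⟩ | ⟨rfl, hl⟩ <;> rcases hl' with ⟨rfl, hl'⟩ | ⟨rfl, hl'⟩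
    · exact sw _ _ (by linear_combination h3)
    · have h4 : f a u y + f a u x = a ^ 2 := by
        rw [f1, f2]
        linear_combination a * h3 + (a ^ 3 + a) * k * h2
      exact absurd (p3 _ _ h4 hl') hl
    · have h4 : f a u x + f a u y = a ^ 2 := by
        rw [f1, f2]
        linear_combination a * h3 + (a ^ 3 + a) * k * h2
      exact absurd (p3 _ _ h4 hl) hl'
    · exact sw _ _ (by linear_combination h3 + a * h2)

end Pool.Agent.H41.ME
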