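import Mathlib

/-!
# From a permutation of a field to a latin square (MP_2f0703_co)
-/

set_option autoImplicit false

namespace Pool.Agent.H41.ME

/-- the square `i + g (j - i)` over a field of characteristic `2`, carried over to `Fin (2 ^ k)` -/
theorem tr (k : ℕ) (F : Type) [Field F] [Fintype F] (h2 : (2 : F) = 0) (hcard : Fintype.card F = 2 ^ k) (g : F → F) (p : F)
    (hp : g p = p) (i1 : ∀ x y, g x = g y → x = y) (i2 : ∀ x y, g x + x = g y + y → x = y)
    (i3 : ∀ x y, g (g x) + x = g (g y) + y → x = y) (b : F) (reach : ∀ x, x ≠ p → ∃ n : ℕ, g^[n] b = x)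
    (ngr : ¬ ∃ (G : Type) (_ : Group G) (r c s : F ≃ G), ∀ i j : F, s (i + g (j - i)) = r i * c j) :
    ∃ L : Fin (2 ^ k) → Equiv.Perm (Fin (2 ^ k)),
      (∀ j, Function.Injective (fun i => L i j)) ∧
      (∀ i, (∃! x, L i x = x) ∧ ∀ x y, L i x ≠ x → L i y ≠ y → ∃ n : ℕ, ((L i) ^ n) x = y) ∧
      (¬ ∃ (G : Type) (_ : Group G) (r c s : Fin (2 ^ k) ≃ G), ∀ i j, s (L i j) = r i * c j) ∧
      ∀ j, Function.Injective (fun i => (L i * L i) j) := by
  classical
  let ε : F ≃ Fin (2 ^ k) := Fintype.equivFinOfCardEq hcard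
  let P : Equiv.Perm F := Equiv.ofBijective g (Finite.injective_iff_bijective.1 i1)
  have hP : ∀ x, P x = g x := fun x => rfl
  have hPk : ∀ (k : ℕ) (x : F), (P ^ k) x = g^[k] x := by
    intro k
    induction k with
    | zero => intro x; rfl
    | succ k ih =>
      intro x
      rw [pow_succ, Equiv.Perm.mul_apply, ih, Function.iterate_succ_apply, hP]
  let row : F → Equiv.Perm F := fun i => (Equiv.subRight i).trans (P.trans (Equiv.addLeft i))
  have hrow : ∀ i x, row i x = i + g (x - i) := fun i x => rfl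
  let L : Fin (2 ^ k) → Equiv.Perm (Fin (2 ^ k)) :=
    fun i => (ε.symm.trans (row (ε.symm i))).trans ε
  have hL : ∀ i x, L i x = ε (ε.symm i + g (ε.symm x - ε.symm i)) := fun i x => rfl
  have hpow : ∀ (i : Fin (2 ^ k)) (l : ℕ) (x : Fin (2 ^ k)),
      ((L i) ^ l) x = ε (ε.symm i + (P ^ l) (ε.symm x - ε.symm i)) := by
    intro i l
    induction l with
    | zero => intro x; simp
    | succ n ih =>
      intro x
      rw [pow_succ, Equiv.Perm.mul_apply, ih, hL, Equiv.symm_apply_apply, pow_succ, Equiv.Perm.mul_apply, hP,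
        add_sub_cancel_left]
  refine ⟨L, ?_, ?_, ?_, ?_⟩
  · intro j i i' hij
    have h1 : L i j = L i' j := hij
    rw [hL, hL] at h1
    have h3 := ε.injective h1
    have h4 : g (ε.symm j - ε.symm i) + (ε.symm j - ε.symm i) =
        g (ε.symm j - ε.symm i') + (ε.symm j - ε.symm i') := by
      linear_combination h3 - (ε.symm i - ε.symm i') * h2
    have h5 := i2 _ _ h4
    exact ε.symm.injective (sub_right_injective h5)
  · intro i
    have fix : ∀ x, L i x = x ↔ ε.symm x - ε.symm i = p := by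
      intro x
      rw [hL]
      constructor
      · intro hx
        have h1 : ε.symm i + g (ε.symm x - ε.symm i) = ε.symm x := by
          apply ε.injective; rw [hx, Equiv.apply_symm_apply]
        have h3 : g (ε.symm x - ε.symm i) + (ε.symm x - ε.symm i) = g p + p := by
          rw [hp]
          linear_combination h1 + (ε.symm x - ε.symm i - p) * h2
        exact i2 _ _ h3
      · intro hx
        rw [hx, hp, ← hx, add_sub_cancel, Equiv.apply_symm_apply]
    refine ⟨⟨ε (ε.symm i + p), (fix _).2 ?_, fun x hx => ?_⟩, ?_⟩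
    · rw [Equiv.symm_apply_apply, add_sub_cancel_left]
    · have h1 := (fix x).1 hx
      rw [← h1, add_sub_cancel, Equiv.apply_symm_apply]
    intro x y hx hy
    have hx' : ε.symm x - ε.symm i ≠ p := fun h0 => hx ((fix x).2 h0)
    have hy' : ε.symm y - ε.symm i ≠ p := fun h0 => hy ((fix y).2 h0)
    obtain ⟨k, hk⟩ := reach _ hx'
    obtain ⟨l, hl⟩ := reach _ hy'
    rw [← hPk] at hk hl
    have hfin := isOfFinOrder_of_finite P
    obtain ⟨n, hn⟩ : ∃ n : ℕ, (P ^ n) (ε.symm x - ε.symm i) = b := by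
      have h3 : (P ^ k)⁻¹ ∈ Submonoid.powers P := by
        rw [hfin.mem_powers_iff_mem_zpowers]
        exact (Subgroup.zpowers P).inv_mem ((Subgroup.zpowers P).pow_mem (Subgroup.mem_zpowers _) k)
      obtain ⟨n, hn⟩ := h3
      refine ⟨n, ?_⟩
      have hn' : P ^ n = (P ^ k)⁻¹ := hn
      rw [hn', ← hk, ← Equiv.Perm.mul_apply, inv_mul_cancel, Equiv.Perm.one_apply]
    refine ⟨l + n, ?_⟩
    rw [hpow, pow_add, Equiv.Perm.mul_apply, hn, hl, add_sub_cancel, Equiv.apply_symm_apply]
  · rintro ⟨G, hG, r, c', s, H⟩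
    refine ngr ⟨G, hG, ε.trans r, ε.trans c', ε.trans s, fun i j => ?_⟩
    have h1 := H (ε i) (ε j)
    rw [hL, Equiv.symm_apply_apply, Equiv.symm_apply_apply] at h1
    exact h1
  · intro j i i' hij
    have h1 : ((L i) ^ 2) j = ((L i') ^ 2) j := by
      rw [pow_two, pow_two]; exact hij
    rw [hpow, hpow] at h1
    have h3 := ε.injective h1
    rw [hPk, hPk] at h3
    have h4 : g (g (ε.symm j - ε.symm i)) + (ε.symm j - ε.symm i) =
        g (g (ε.symm j - ε.symm i')) + (ε.symm j - ε.symm i') := by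
      have h6 : ∀ x, g^[2] x = g (g x) := fun x => rfl
      rw [h6, h6] at h3
      linear_combination h3 - (ε.symm i - ε.symm i') * h2
    have h5 := i3 _ _ h4
    exact ε.symm.injective (sub_right_injective h5)

end Pool.Agent.H41.ME
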