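import Pool.Agent.H41.ME.Quad
import Pool.Agent.H41.ME.Tr

/-!
# D-type latin squares of order `2 ^ k` for every `k ≥ 6` (MP_2f0703_co), the construction of helper90

`V` the span of `a, a^2, a^3`, `c = a^3 + a`, `θ x = x + c` on `V` and `θ x = x` elsewhere, `f = θ ∘ (a ·) ∘ θ`.
-/

set_option autoImplicit false

namespace Pool.Agent.H41.ME.Pt

/-- the span of `a, a^2, a^3` -/
def V {F : Type} [Field F] (h2 : (2 : F) = 0) (a : F) : AddSubgroup F where
  carrier := {x | ∃ p q r : ℕ, x = p * a + q * a ^ 2 + r * a ^ 3}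
  zero_mem' := ⟨0, 0, 0, by simp⟩
  add_mem' := by
    rintro x y ⟨p, q, r, rfl⟩ ⟨p', q', r', rfl⟩
    exact ⟨p + p', q + q', r + r', by push_cast; ring⟩
  neg_mem' := by
    rintro x ⟨p, q, r, rfl⟩
    exact ⟨p, q, r, by linear_combination (-(p * a + q * a ^ 2 + r * a ^ 3)) * h2⟩

open Classical in
/-- the involution -/
noncomputable def th {F : Type} [Field F] (h2 : (2 : F) = 0) (a x : F) : F := x + (a ^ 3 + a) * if x ∈ V h2 a then 1 else 0

/-- the permutation -/
noncomputable def f {F : Type} [Field F] (h2 : (2 : F) = 0) (a x : F) : F := th h2 a (a * th h2 a x)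

section
variable {F : Type} [Field F] (h2 : (2 : F) = 0) (a : F)

theorem a_mem : a ∈ V h2 a := ⟨1, 0, 0, by push_cast; ring⟩
theorem a2_mem : a ^ 2 ∈ V h2 a := ⟨0, 1, 0, by push_cast; ring⟩
theorem a3_mem : a ^ 3 ∈ V h2 a := ⟨0, 0, 1, by push_cast; ring⟩

theorem th_th (x : F) : th h2 a (th h2 a x) = x := by
  classical
  have hc : a ^ 3 + a ∈ V h2 a := (V h2 a).add_mem (a3_mem h2 a) (a_mem h2 a)
  unfold th
  by_cases hx : x ∈ V h2 a
  · rw [if_pos hx, mul_one, if_pos ((V h2 a).add_mem hx hc)]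
    linear_combination (a ^ 3 + a) * h2
  · rw [if_neg hx, mul_zero, add_zero, if_neg hx, mul_zero, add_zero]

theorem th_inj {x y : F} (h : th h2 a x = th h2 a y) : x = y := by
  rw [← th_th h2 a x, h, th_th]

theorem per (P Q : F → Prop) [DecidablePred P] [DecidablePred Q] (v : F) (hP : ∀ x, P (x + v) ↔ P x) (hQ : ∀ x, Q (x + v) ↔ Q x)
    (z z' : F) (h : z + v * ((if P z then 1 else 0) + (if Q z then 1 else 0)) =
      z' + v * ((if P z' then 1 else 0) + (if Q z' then 1 else 0))) (h2 : (2 : F) = 0) : z = z' := by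
  have key : z' = z ∨ z' = z + v := by
    split_ifs at h <;>
    first
    | (left; linear_combination -h)
    | (left; linear_combination -h + v * h2)
    | (left; linear_combination -h - v * h2)
    | (right; linear_combination -h)
    | (right; linear_combination -h - v * h2)
  rcases key with k | k
  · exact k.symm
  · rw [k] at h ⊢
    simp only [hP, hQ] at h
    linear_combination h

theorem dinj (m w : F) (hm : m + 1 ≠ 0) (hw : (m + 1) * w = a ^ 3 + a) (hV : w ∈ V h2 a) (hmV : m * w ∈ V h2 a) (z z' : F)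
    (h : th h2 a (m * z) + th h2 a z = th h2 a (m * z') + th h2 a z') : z = z' := by
  classical
  refine per (fun x => m * x ∈ V h2 a) (fun x => x ∈ V h2 a) w ?_ ?_ z z' ?_ h2
  · intro x
    rw [mul_add]
    exact (V h2 a).add_mem_cancel_right hmV
  · intro x
    exact (V h2 a).add_mem_cancel_right hV
  · unfold th at h
    apply mul_left_cancel₀ hm
    rw [← hw] at h
    linear_combination h

include h2 in
theorem red (p : ℕ) : (p : F) = 0 ∨ (p : F) = 1 := by
  have h1 : (p : F) = ((2 * (p / 2) + p % 2 : ℕ) : F) := by rw [Nat.div_add_mod]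
  rw [h1]
  push_cast
  rw [h2, zero_mul, zero_add]
  rcases Nat.mod_two_eq_zero_or_one p with h | h <;> rw [h] <;> simp

theorem all (k : ℕ) (hk : 6 ≤ k) (F : Type) [Field F] [Fintype F] (h2 : (2 : F) = 0) (hcard : Fintype.card F = 2 ^ k) :
    ∃ L : Fin (2 ^ k) → Equiv.Perm (Fin (2 ^ k)),
      (∀ j, Function.Injective (fun i => L i j)) ∧
      (∀ i, (∃! x, L i x = x) ∧ ∀ x y, L i x ≠ x → L i y ≠ y → ∃ n : ℕ, ((L i) ^ n) x = y) ∧
      (¬ ∃ (G : Type) (_ : Group G) (r c s : Fin (2 ^ k) ≃ G), ∀ i j, s (L i j) = r i * c j) ∧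
      ∀ j, Function.Injective (fun i => (L i * L i) j) := by
  classical
  have h64 : 64 ≤ Fintype.card F := by
    rw [hcard]
    calc 64 = 2 ^ 6 := by norm_num
      _ ≤ 2 ^ k := Nat.pow_le_pow_right (by norm_num) hk
  obtain ⟨g, hg⟩ := IsCyclic.exists_generator (α := Fˣ)
  have hpow : ∀ x : F, x ≠ 0 → ∃ n : ℕ, x = (g : F) ^ n := by
    intro x hx
    have h1 := hg (Units.mk0 x hx)
    rw [← (isOfFinOrder_of_finite g).mem_powers_iff_mem_zpowers] at h1
    obtain ⟨n, hn⟩ := h1
    refine ⟨n, ?_⟩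
    have h3 : g ^ n = Units.mk0 x hx := hn
    rw [← Units.val_pow_eq_pow_val, h3, Units.val_mk0]
  obtain ⟨a, ha⟩ : ∃ a : F, a = (g : F) := ⟨_, rfl⟩
  rw [← ha] at hpow
  have a0 : a ≠ 0 := by rw [ha]; exact g.ne_zero
  have a1 : a + 1 ≠ 0 := by
    intro h
    have h1 : a = 1 := by linear_combination h - h2
    have h3 : (Finset.univ : Finset F) ⊆ {0, 1} := by
      intro x _
      by_cases hx : x = 0
      · simp [hx]
      · obtain ⟨n, hn⟩ := hpow x hx
        rw [hn, h1, one_pow]
        simp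
    have h4 := Finset.card_le_card h3
    rw [Finset.card_univ] at h4
    have := Finset.card_le_two (a := (0 : F)) (b := 1)
    omega
  have a2 : a ^ 2 + 1 ≠ 0 := by
    have : a ^ 2 + 1 = (a + 1) ^ 2 := by linear_combination (-a) * h2
    rw [this]
    exact pow_ne_zero _ a1
  have hc : a ^ 3 + a ≠ 0 := by
    have : a ^ 3 + a = a * (a ^ 2 + 1) := by ring
    rw [this]
    exact mul_ne_zero a0 a2
  have ff : ∀ x, f h2 a (f h2 a x) = th h2 a (a ^ 2 * th h2 a x) := by
    intro x
    unfold f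
    rw [th_th, ← mul_assoc, ← pow_two]
  have th0 : th h2 a 0 = a ^ 3 + a := by
    unfold th
    rw [if_pos (V h2 a).zero_mem]
    ring
  refine tr k F h2 hcard (f h2 a) (th h2 a 0) ?_ ?_ ?_ ?_ (th h2 a 1) ?_ ?_
  · unfold f
    rw [th_th, mul_zero]
  · intro x y h
    have h1 := th_inj h2 a h
    exact th_inj h2 a (mul_left_cancel₀ a0 h1)
  · intro x y h
    apply th_inj h2 a
    refine dinj h2 a a (a ^ 2 + a) a1 ?_ ?_ ?_ _ _ ?_
    · linear_combination (a ^ 2) * h2
    · exact (V h2 a).add_mem (a2_mem h2 a) (a_mem h2 a)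
    · have : a * (a ^ 2 + a) = a ^ 3 + a ^ 2 := by ring
      rw [this]
      exact (V h2 a).add_mem (a3_mem h2 a) (a2_mem h2 a)
    · rw [th_th, th_th]
      exact h
  · intro x y h
    apply th_inj h2 a
    refine dinj h2 a (a ^ 2) a a2 ?_ (a_mem h2 a) ?_ _ _ ?_
    · ring
    · have : a ^ 2 * a = a ^ 3 := by ring
      rw [this]
      exact a3_mem h2 a
    · rw [th_th, th_th, ← ff, ← ff]
      exact h
  · intro x hx
    have h1 : th h2 a x ≠ 0 := by
      intro h
      apply hx
      rw [← h, th_th]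
    obtain ⟨n, hn⟩ := hpow _ h1
    refine ⟨n, ?_⟩
    have h3 : ∀ n : ℕ, (f h2 a)^[n] (th h2 a 1) = th h2 a (a ^ n) := by
      intro n
      induction n with
      | zero => rw [pow_zero]; rfl
      | succ n ih =>
        rw [Function.iterate_succ_apply', ih]
        unfold f
        rw [th_th, pow_succ']
    rw [h3, ← hn, th_th]
  · let l : List F := [0, a, a ^ 2, a ^ 3, a + a ^ 2, a + a ^ 3, a ^ 2 + a ^ 3, a + a ^ 2 + a ^ 3, 1, 1 + a, 1 + a ^ 2, 1 + a + a ^ 2]
    have hV : ∀ x, x ∈ V h2 a → x ∈ l := by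
      rintro x ⟨p, q, r, rfl⟩
      rcases red h2 p with h | h <;> rcases red h2 q with h' | h' <;> rcases red h2 r with h'' | h'' <;>
        rw [h, h', h''] <;> simp [l]
    have hV' : ∀ x, a * x ∈ V h2 a → x ∈ l := by
      rintro x ⟨p, q, r, hx⟩
      have hx' : x = p + q * a + r * a ^ 2 := by
        apply mul_left_cancel₀ a0
        rw [hx]
        ring
      rw [hx']
      rcases red h2 p with h | h <;> rcases red h2 q with h' | h' <;> rcases red h2 r with h'' | h'' <;>
        rw [h, h', h''] <;> simp [l]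
    refine quad F h2 a (f h2 a) l.toFinset ?_ h64 ?_ 0 ?_
    · exact (List.toFinset_card_le l)
    · intro x hx
      rw [List.mem_toFinset] at hx
      have h1 : x ∉ V h2 a := fun h => hx (hV x h)
      have h3 : a * x ∉ V h2 a := fun h => hx (hV' x h)
      unfold f
      have h4 : th h2 a x = x := by unfold th; rw [if_neg h1]; ring
      rw [h4]
      unfold th
      rw [if_neg h3]
      ring
    · rw [mul_zero]
      unfold f
      rw [th0]
      unfold th
      split_ifs
      · intro h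
        have : (a + 1) * (a ^ 3 + a) = 0 := by linear_combination h
        exact (mul_ne_zero a1 hc) this
      · intro h
        have : a * (a ^ 3 + a) = 0 := by linear_combination h
        exact (mul_ne_zero a0 hc) this

end

end Pool.Agent.H41.ME.Pt
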