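import Mathlib

/-!
# The quadrangle criterion (MP_2f0703_co)
-/

set_option autoImplicit false

namespace Pool.Agent.H41.ME

/-- if `g x = a x` outside a set `S` of at most `12` elements and `g z ≠ a z` for some `z`, the square `i + g (j - i)` is not based on
a group, when `F` has at least `64` elements -/
theorem quad (F : Type) [Field F] [Fintype F] [DecidableEq F] (h2 : (2 : F) = 0) (a : F) (g : F → F) (S : Finset F)
    (hS : S.card ≤ 12) (hc : 64 ≤ Fintype.card F) (hg : ∀ x, x ∉ S → g x = a * x) (z : F) (hz : g z ≠ a * z) :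
    ¬ ∃ (G : Type) (_ : Group G) (r c s : F ≃ G), ∀ i j : F, s (i + g (j - i)) = r i * c j := by
  have pick : ∀ T : Finset F, T.card < 64 → ∃ x, x ∉ T := by
    intro T hT
    by_contra hx
    push Not at hx
    have h1 : T = Finset.univ := Finset.eq_univ_iff_forall.2 hx
    rw [h1, Finset.card_univ] at hT
    omega
  have shift : ∀ y : F, (S.image (fun x => x + y)).card ≤ 12 := fun y => Finset.card_image_le.trans hS
  have mem : ∀ x y : F, x ∉ S.image (fun w => w + y) → x + y ∉ S := by
    intro x y hx hxy
    apply hx
    rw [Finset.mem_image]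
    exact ⟨x + y, hxy, by linear_combination y * h2⟩
  obtain ⟨d, hd⟩ := pick (S.image (fun x => x + z)) (by have := shift z; omega)
  obtain ⟨e, he⟩ := pick (S.image (fun x => x + z) ∪ S.image (fun x => x + (z + d))) (by
    have h1 := shift z
    have h3 := shift (z + d)
    have := Finset.card_union_le (S.image (fun x => x + z)) (S.image (fun x => x + (z + d)))
    omega)
  obtain ⟨t, ht⟩ := pick ((S.image (fun x => x + z) ∪ S.image (fun x => x + (z + d))) ∪
      (S.image (fun x => x + (z + e)) ∪ S.image (fun x => x + (z + d + e)))) (by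
    have h1 := shift z
    have h3 := shift (z + d)
    have h4 := shift (z + e)
    have h5 := shift (z + d + e)
    have h6 := Finset.card_union_le (S.image (fun x => x + z)) (S.image (fun x => x + (z + d)))
    have h7 := Finset.card_union_le (S.image (fun x => x + (z + e))) (S.image (fun x => x + (z + d + e)))
    have := Finset.card_union_le (S.image (fun x => x + z) ∪ S.image (fun x => x + (z + d)))
      (S.image (fun x => x + (z + e)) ∪ S.image (fun x => x + (z + d + e)))
    omega)
  simp only [Finset.mem_union, not_or] at he ht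
  have n1 := hg _ (mem _ _ hd)
  have n2 := hg _ (mem _ _ he.1)
  have n3 := hg _ (mem _ _ he.2)
  have n4 := hg _ (mem _ _ ht.1.1)
  have n5 := hg _ (mem _ _ ht.1.2)
  have n6 := hg _ (mem _ _ ht.2.1)
  have n7 := hg _ (mem _ _ ht.2.2)
  rintro ⟨G, _, r, c, s, h⟩
  -- rows `0`, `e`, columns `z`, `z + d`; second quadrangle: rows `a t`, `e + a t`, columns `z + (a + 1) t`, `z + d + (a + 1) t`
  have a1 := h 0 z
  have a2 := h 0 (z + d)
  have a3 := h e z
  have a4 := h e (z + d)
  have b1 := h (a * t) (z + (a + 1) * t)
  have b2 := h (a * t) (z + d + (a + 1) * t)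
  have b3 := h (e + a * t) (z + (a + 1) * t)
  have b4 := h (e + a * t) (z + d + (a + 1) * t)
  have e1 : z + (a + 1) * t - a * t = t + z := by ring
  have e2 : z + d + (a + 1) * t - a * t = t + (z + d) := by ring
  have e3 : z + (a + 1) * t - (e + a * t) = t + (z + e) := by linear_combination (-e) * h2
  have e4 : z + d + (a + 1) * t - (e + a * t) = t + (z + d + e) := by linear_combination (-e) * h2
  have e5 : z + d - 0 = d + z := by ring
  have e6 : z - e = e + z := by linear_combination (-e) * h2
  have e7 : z + d - e = e + (z + d) := by linear_combination (-e) * h2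
  rw [e1, n4] at b1
  rw [e2, n5] at b2
  rw [e3, n6] at b3
  rw [e4, n7] at b4
  rw [e5, n1] at a2
  rw [e6, n2] at a3
  rw [e7, n3] at a4
  have i2 : a * t + a * (t + (z + d)) = 0 + a * (d + z) := by linear_combination (a * t) * h2
  have i3 : e + a * t + a * (t + (z + e)) = e + a * (e + z) := by linear_combination (a * t) * h2
  have i4 : e + a * t + a * (t + (z + d + e)) = e + a * (e + (z + d)) := by linear_combination (a * t) * h2
  have i1 : a * t + a * (t + z) = a * z := by linear_combination (a * t) * h2
  rw [i2, a2] at b2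
  rw [i3, a3] at b3
  rw [i4, a4] at b4
  rw [i1] at b1
  have k1 : s (0 + g (z - 0)) = s (a * z) := by
    rw [a1, b1]
    -- r 0 * c z = r' * c'
    have q1 : r 0 = r (a * t) * c (z + d + (a + 1) * t) * (c (z + d))⁻¹ := by rw [← b2]; group
    have q2 : r e = r (e + a * t) * c (z + d + (a + 1) * t) * (c (z + d))⁻¹ := by rw [← b4]; group
    have q3 : c z = (r e)⁻¹ * (r (e + a * t) * c (z + (a + 1) * t)) := by rw [← b3]; group
    rw [q3, q2, q1]
    group
  have k2 := s.injective k1
  apply hz
  rw [sub_zero, zero_add] at k2
  exact k2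

end Pool.Agent.H41.ME
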